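import Mathlib

/-!
# SQ2: arithmetic of the parameters

`l = log₂ N`, `y = sqrt (l / (log₂ l + 1)) + 1`, `m ≤ l + 1`, `k` the least number with `m ≤ k ^ 8`.
-/

set_option autoImplicit false

namespace Pool.Agent.Helper50.SQ2

/-- `sqrt (l / log l) + 1`. -/
def yy (l : ℕ) : ℕ := Nat.sqrt (l / (Nat.log 2 l + 1)) + 1

theorem yy_pos (l : ℕ) : 1 ≤ yy l := Nat.succ_le_succ (Nat.zero_le _)

theorem lt_yy (l : ℕ) : l + 1 ≤ (Nat.log 2 l + 1) * yy l ^ 2 := by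
  have h1 : l / (Nat.log 2 l + 1) < yy l * yy l := Nat.lt_succ_sqrt _
  have h2 : l < (yy l * yy l) * (Nat.log 2 l + 1) := by
    rw [← Nat.div_lt_iff_lt_mul (Nat.succ_pos _)]
    exact h1
  rw [pow_two, mul_comm]
  exact h2

theorem log_le (d : ℕ) : Nat.log 2 (d + 1) ≤ d := by
  have h : d + 1 < 2 ^ (d + 1) := Nat.lt_two_pow_self
  have := Nat.log_lt_of_lt_pow (by omega) h
  omega

theorem lam_ratio (l m : ℕ) (hm : 1 ≤ m) (hml : m ≤ l + 1) :
    (Nat.log 2 l + 1) * m ≤ (Nat.log 2 m + 1) * (3 * (l + 1)) := by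
  rcases Nat.eq_zero_or_pos l with hl | hl
  · subst hl
    have : m = 1 := by omega
    subst this
    norm_num
  set d := l / m with hd
  have h1 : l < m * (d + 1) := by
    rw [hd, mul_comm]
    exact Nat.lt_mul_of_div_lt (Nat.lt_succ_self _) (by omega)
  have h2 : d * m ≤ l := Nat.div_mul_le_self l m
  have h3 : Nat.log 2 l ≤ Nat.log 2 m + d + 1 := by
    have h4 : m < 2 ^ (Nat.log 2 m + 1) := Nat.lt_pow_succ_log_self (by norm_num) m
    have h5 : d + 1 ≤ 2 ^ d := Nat.lt_two_pow_self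
    have h6 : l < 2 ^ (Nat.log 2 m + 1 + d) := by
      calc l < m * (d + 1) := h1
        _ ≤ 2 ^ (Nat.log 2 m + 1) * 2 ^ d := Nat.mul_le_mul h4.le h5
        _ = 2 ^ (Nat.log 2 m + 1 + d) := (pow_add _ _ _).symm
    have := Nat.log_lt_of_lt_pow (by omega) h6
    omega
  have h7 : (Nat.log 2 l + 1) * m ≤ (Nat.log 2 m + d + 2) * m :=
    Nat.mul_le_mul_right _ (by omega)
  have h8 : (Nat.log 2 m + d + 2) * m ≤ (Nat.log 2 m + 1) * (d * m + 2 * m) := by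
    have h9 : Nat.log 2 m + d + 2 ≤ (Nat.log 2 m + 1) * (d + 2) := by
      nlinarith [Nat.zero_le (Nat.log 2 m * d)]
    calc (Nat.log 2 m + d + 2) * m ≤ (Nat.log 2 m + 1) * (d + 2) * m :=
          Nat.mul_le_mul_right _ h9
      _ = (Nat.log 2 m + 1) * (d * m + 2 * m) := by ring
  refine h7.trans (h8.trans (Nat.mul_le_mul_left _ ?_))
  omega

theorem m_le (l m : ℕ) (hm : 1 ≤ m) (hml : m ≤ l + 1) :
    m ≤ 3 * (Nat.log 2 m + 1) * yy l ^ 2 := by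
  have h1 := lam_ratio l m hm hml
  have h2 := lt_yy l
  have h3 : (Nat.log 2 l + 1) * m ≤
      (Nat.log 2 l + 1) * (3 * (Nat.log 2 m + 1) * yy l ^ 2) := by
    calc (Nat.log 2 l + 1) * m ≤ (Nat.log 2 m + 1) * (3 * (l + 1)) := h1
      _ ≤ (Nat.log 2 m + 1) * (3 * ((Nat.log 2 l + 1) * yy l ^ 2)) :=
          Nat.mul_le_mul_left _ (Nat.mul_le_mul_left _ h2)
      _ = _ := by ring
  exact Nat.le_of_mul_le_mul_left h3 (Nat.succ_pos _)

/-- The threshold of phase 2. -/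
def KK (l m : ℕ) : ℕ := 2 ^ ((Nat.log 2 m + 1) * (2 * yy l))

theorem two_le_KK (l m : ℕ) : 2 ≤ KK l m := by
  unfold KK
  have h : 1 ≤ (Nat.log 2 m + 1) * (2 * yy l) := by
    have := yy_pos l
    nlinarith [Nat.zero_le (Nat.log 2 m)]
  calc 2 = 2 ^ 1 := rfl
    _ ≤ _ := Nat.pow_le_pow_right (by norm_num) h

theorem pow_m_le (l m : ℕ) (hm : 1 ≤ m) (hml : m ≤ l + 1) : 2 ^ m ≤ KK l m ^ (2 * yy l) := by
  unfold KK
  rw [← pow_mul]
  apply Nat.pow_le_pow_right (by norm_num)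
  have := m_le l m hm hml
  nlinarith [Nat.zero_le ((Nat.log 2 m + 1) * yy l ^ 2)]

theorem KK_mul_lt (l m k : ℕ) (hm : 1 ≤ m) (hk : m ≤ k ^ 8) :
    KK l m * m < (k + 2) ^ (27 * yy l) := by
  have hy := yy_pos l
  have h1 : 2 ^ (Nat.log 2 m + 1) ≤ (k + 2) ^ 9 := by
    have h2 : 2 ^ Nat.log 2 m ≤ m := Nat.pow_log_le_self 2 (by omega)
    have h3 : k ^ 8 ≤ (k + 2) ^ 8 := Nat.pow_le_pow_left (by omega) 8
    calc 2 ^ (Nat.log 2 m + 1) = 2 ^ Nat.log 2 m * 2 := pow_succ _ _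
      _ ≤ (k + 2) ^ 8 * (k + 2) := Nat.mul_le_mul (h2.trans (hk.trans h3)) (by omega)
      _ = (k + 2) ^ 9 := (pow_succ _ _).symm
  have h4 : KK l m ≤ (k + 2) ^ (18 * yy l) := by
    unfold KK
    rw [pow_mul]
    calc (2 ^ (Nat.log 2 m + 1)) ^ (2 * yy l) ≤ ((k + 2) ^ 9) ^ (2 * yy l) :=
          Nat.pow_le_pow_left h1 _
      _ = (k + 2) ^ (18 * yy l) := by
          rw [← pow_mul]
          congr 1
          ring
  have h5 : m ≤ (k + 2) ^ 8 := hk.trans (Nat.pow_le_pow_left (by omega) 8)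
  calc KK l m * m ≤ (k + 2) ^ (18 * yy l) * (k + 2) ^ 8 := Nat.mul_le_mul h4 h5
    _ = (k + 2) ^ (18 * yy l + 8) := (pow_add _ _ _).symm
    _ < (k + 2) ^ (27 * yy l) := Nat.pow_lt_pow_right (by omega) (by omega)

theorem u_lt (m : ℕ) : (m + 2) * m < 2 ^ (2 * (Nat.log 2 m + 1) + 1) := by
  have h : m < 2 ^ (Nat.log 2 m + 1) := Nat.lt_pow_succ_log_self (by norm_num) m
  have h2 : 2 ^ 1 ≤ 2 ^ (Nat.log 2 m + 1) := Nat.pow_le_pow_right (by norm_num) (by omega)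
  rw [pow_succ, two_mul, pow_add]
  generalize 2 ^ (Nat.log 2 m + 1) = a at h h2
  nlinarith

theorem Ku_le (l m k : ℕ) (hm : 1 ≤ m) (hml : m ≤ l + 1) (hk : m ≤ k ^ 8)
    (hk' : ∀ j < k, j ^ 8 < m) :
    (k + 2) * (2 * (Nat.log 2 m + 1) + 1) ≤ 1710 * yy l := by
  have hkpos : 1 ≤ k := by
    by_contra h
    have : k = 0 := by omega
    subst this
    simp at hk
    omega
  obtain ⟨c, rfl⟩ : ∃ c, k = c + 1 := ⟨k - 1, by omega⟩
  have hc : c ^ 8 < m := hk' c (by omega)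
  -- `log m + 1 ≤ 9 k`
  have h1 : Nat.log 2 m + 1 ≤ 9 * (c + 1) := by
    have h2 : m < 2 ^ (8 * (c + 1) + 1) := by
      have h3 : c + 1 ≤ 2 ^ (c + 1) := Nat.lt_two_pow_self.le
      calc m ≤ (c + 1) ^ 8 := hk
        _ ≤ (2 ^ (c + 1)) ^ 8 := Nat.pow_le_pow_left h3 8
        _ = 2 ^ (8 * (c + 1)) := by
            rw [← pow_mul]
            congr 1
            ring
        _ < 2 ^ (8 * (c + 1) + 1) := Nat.pow_lt_pow_right (by norm_num) (by omega)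
    have := Nat.log_lt_of_lt_pow (by omega) h2
    omega
  -- `k ^ 2 ≤ 30 y`
  have h4 : (c + 1) ^ 5 ≤ 32 * (c ^ 8 + 1) := by
    rcases Nat.eq_zero_or_pos c with hc0 | hc0
    · subst hc0
      norm_num
    · have h5 : (c + 1) ^ 5 ≤ (2 * c) ^ 5 := Nat.pow_le_pow_left (by omega) 5
      have h6 : c ^ 5 ≤ c ^ 8 := Nat.pow_le_pow_right hc0 (by norm_num)
      rw [mul_pow] at h5
      omega
  have h7 := m_le l m hm hml
  have h8 : ((c + 1) ^ 2) ^ 2 ≤ (30 * yy l) ^ 2 := by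
    have h9 : (c + 1) ^ 5 ≤ 32 * (3 * (9 * (c + 1)) * yy l ^ 2) := by
      calc (c + 1) ^ 5 ≤ 32 * (c ^ 8 + 1) := h4
        _ ≤ 32 * m := Nat.mul_le_mul_left _ hc
        _ ≤ 32 * (3 * (Nat.log 2 m + 1) * yy l ^ 2) := Nat.mul_le_mul_left _ h7
        _ ≤ 32 * (3 * (9 * (c + 1)) * yy l ^ 2) :=
            Nat.mul_le_mul_left _ (Nat.mul_le_mul_right _ (Nat.mul_le_mul_left _ h1))
    have h10 : (c + 1) * ((c + 1) ^ 4) ≤ (c + 1) * (864 * yy l ^ 2) := by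
      calc (c + 1) * (c + 1) ^ 4 = (c + 1) ^ 5 := by ring
        _ ≤ 32 * (3 * (9 * (c + 1)) * yy l ^ 2) := h9
        _ = (c + 1) * (864 * yy l ^ 2) := by ring
    have h11 := Nat.le_of_mul_le_mul_left h10 (Nat.succ_pos c)
    calc ((c + 1) ^ 2) ^ 2 = (c + 1) ^ 4 := by ring
      _ ≤ 864 * yy l ^ 2 := h11
      _ ≤ (30 * yy l) ^ 2 := by
          rw [mul_pow]
          exact Nat.mul_le_mul_right _ (by norm_num)
  have h12 : (c + 1) ^ 2 ≤ 30 * yy l := by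
    by_contra h
    push Not at h
    have := Nat.pow_lt_pow_left h (show 2 ≠ 0 by norm_num)
    omega
  calc (c + 1 + 2) * (2 * (Nat.log 2 m + 1) + 1) ≤ (3 * (c + 1)) * (19 * (c + 1)) :=
        Nat.mul_le_mul (by omega) (by omega)
    _ = 57 * (c + 1) ^ 2 := by ring
    _ ≤ 57 * (30 * yy l) := Nat.mul_le_mul_left _ h12
    _ = 1710 * yy l := by ring

theorem KK_le (l m : ℕ) (hml : m ≤ l + 1) : KK l m ≤ 2 ^ (4 * (l + 1) * yy l) := by
  unfold KK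
  apply Nat.pow_le_pow_right (by norm_num)
  have h1 : Nat.log 2 m + 1 ≤ 2 * (l + 1) := by
    rcases Nat.eq_zero_or_pos m with h | h
    · subst h
      simp
      omega
    · obtain ⟨m', rfl⟩ : ∃ m', m = m' + 1 := ⟨m - 1, by omega⟩
      have := log_le m'
      omega
  calc (Nat.log 2 m + 1) * (2 * yy l) ≤ (2 * (l + 1)) * (2 * yy l) := Nat.mul_le_mul_right _ h1
    _ = 4 * (l + 1) * yy l := by ring

end Pool.Agent.Helper50.SQ2
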